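import Pool.Agent.Q2E.Main

/-!
# Q1, or E needs circuits of exponential size and is not contained in Σ₂TIME(2^o(n))

Let `μ` be a universal `Σ^b_1` formula, and let `P` assign to clocked programs (presentations of
theories) `Δ^b_1` proof formulas, as in the problem. Then the assertion of Q1 holds, or there is a
set `A` in the class E (time `2 ^ O(m)` for numbers of length `m`) with the following properties.

(a) For some `e` and all large `m` no Boolean circuit with at most `2 ^ (m / e)` gates decides `A`
for the numbers of length `m`.

(b) `A` is in `Σ₂TIME(t)` for no constructible `t` with `t(m) = 2 ^ o(m)`.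

(c) For every proof system for `A` in which proofs can be checked in coNP, and which is sound, there
is `e` such that for all large `m` some number of length `m` in `A` has no proof of size at most
`2 ^ (m / e)`.
-/

namespace Pool.Agent.Results.MP_9649a7_lc.CircuitDichotomy

open Pool.Agent.H19 Pool.Agent.S2L Pool.Agent.Q2E

theorem result (μ : Fm) (hμ : IsUniversal μ) (P : Code → ℕ → Fm) (hP : IsFormalisation μ P) :
    ReflectionConjecture μ P ∨
      ∃ A : Set ℕ, InE A ∧ HardForCircuits A ∧
        (∀ t : ℕ → ℕ, SubexpBound t → ¬ InSigma2Time t A) ∧ NoShortProofs A := by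
  rcases Pool.Agent.Q2E.mainE μ hμ P hP with h | ⟨A, h1, h2, _, h4, h5⟩
  · exact Or.inl h
  · exact Or.inr ⟨A, h1, h2, h5, h4⟩

end Pool.Agent.Results.MP_9649a7_lc.CircuitDichotomy
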