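import Pool.Agent.RL4.Main

/-!
# Finite reflection for presentations with arbitrary clocks

Let `μ` range over the universal `Σ^b_1` formulas, `P` over the assignments of `Δ^b_1` proof
formulas to clocked programs, as in the problem, `S` and `T₀` over the theories of the class, and
`α` over the nondecreasing functions computable in polynomial time (in unary).

(1) There are `a`, `b` such that for every `k` the theory `T₀` is presented by a program `c` that
halts on every input `x` within the clock `(size x + 2) ^ κ (size x)`, `κ n = a + b (k + α n)`,
with the following property. Let `R n` be the reflection sentence for `n`, formed with `P c (κ n)`.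
For all large `n` no program outputs, from `n` and from advice of size at most `n / 500`, an
`S`-proof of `R n` at cost at most `n ^ (k + α (n / 200))`. So if `α` is unbounded (it may grow as
slowly as one likes), then for all large `n` no polynomial-time function outputs one.

(2) Either, for all `μ`, `P`, `S`, `T₀`, `α`, the program `c` in (1) can be chosen such that, in
addition, no polynomial-time function constructs `S`-proofs of `R n` for all large `n` (for bounded
`α` this is the assertion of Q1), or, for all `μ`, `P`, `S`, `T₀`, `α`, there are such `a`, `b` and
`c` such that for all large `n` all `S`-proofs of `R n` are longer than `n ^ (k + α (n / 200))`.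

For `α = 0` the clocks are polynomial, with an exponent linear in `k`.
-/

namespace Pool.Agent.Results.MP_9649a7_lc.FixedLength

open Pool.Agent.H19 Pool.Agent.RL4

theorem result :
    EveryTheory (fun S R α k => NoProg S R α k ∧ ((∀ B, ∃ n, B ≤ α n) → NoPolyAdvice S R)) ∧
    (EveryTheory (fun S R α k => NoPoly S R ∧ NoProg S R α k) ∨
      EveryTheory (fun S R α k => Long S R α k)) :=
  Pool.Agent.RL4.global

end Pool.Agent.Results.MP_9649a7_lc.FixedLength
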