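import Pool.Agent.LGD.Main2

/-!
# Certificates, described proofs and the lengths of the proofs of the reflection sentences

Let `μ` be a universal `Σ^b_1` formula, and let `P` assign to clocked programs (presentations of
theories) `Δ^b_1` proof formulas, as in the problem. Let `S` and `T₀` be theories of the class, `B` a
sound notion of coNP-checkable certificates of `S`-provability, and `V` a sound proof checker for
`S`. Then there is a presentation `(c, κ)`, by a program that always halts within its clock, of a
theory of the class with the models of `T₀`, such that for the reflection sentence `φ` for `n` of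
this presentation, for all large `n` and all `m` with `m ^ e ≤ n` (for some `e`), the following
holds.

(a) `φ` has no certificate of size at most `m`.

(b) No program of size at most `m` computes, each at cost at most `m`, from their numbers in binary,
the records of an accepting computation of `V` with `φ` as second argument (a proof and its
verification by `V`), of any length up to `2 ^ m`.

(c) All `S`-proofs of `φ` have size more than `2 ^ m`, or some set in NE is not in `Σ₂^p`.

(d) No program of size at most `m` outputs, from `n` in unary, an `S`-proof of `φ` at cost at most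
`2 ^ m`, or some set in E is not in `Σ₂^p`.
-/

namespace Pool.Agent.Results.MP_9649a7_lc.LengthDichotomy

open Pool.Agent.H19 Pool.Agent.RU Pool.Agent.S2L Pool.Agent.Q2E Pool.Agent.LGD

theorem result (μ : Fm) (hμ : IsUniversal μ) (P : Code → ℕ → Fm) (hP : IsFormalisation μ P)
    (S T₀ : Set Fm) (hS : InClassT S) (hT₀ : InClassT T₀) (B : T → T) (hB : PolyTime B)
    (hsound : SoundCert S B) (V : Code) (hV : SoundChecker S V) :
    ∃ (c : Code) (κ : ℕ), HaltsWithin c κ ∧ InClassT (theory c κ) ∧ SameModels (theory c κ) T₀ ∧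
      (∃ e n₀ : ℕ, ∀ n ≥ n₀, ∀ (m : ℕ) (y : T), m ^ e ≤ n → y.size ≤ m →
        ∃ z : T, z.size ≤ m ∧ B (cin (rfn (P c κ) μ n).enc m y z) = T.leaf) ∧
      (∃ e n₀ : ℕ, ∀ n ≥ n₀, ∀ m : ℕ, m ^ e ≤ n → ¬ DescribedBy m (check V (rfn (P c κ) μ n))) ∧
      ((∃ e n₀ : ℕ, ∀ n ≥ n₀, ∀ m : ℕ, m ^ e ≤ n → ∀ π : List Step,
          IsProof S π (rfn (P c κ) μ n) → 2 ^ m < (encProof π).size) ∨
        ∃ A : Set ℕ, InNE A ∧ ¬ InSigma2P A) ∧
      ((∃ e n₀ : ℕ, ∀ n ≥ n₀, ∀ m : ℕ, m ^ e ≤ n → ∀ (D : Code) (t : ℕ) (π : List Step),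
          D.enc.size ≤ m → t ≤ 2 ^ m → Eval D (T.unary n) (encProof π) t →
          ¬ IsProof S π (rfn (P c κ) μ n)) ∨
        ∃ A : Set ℕ, InE A ∧ ¬ InSigma2P A) := by
  obtain ⟨c, κ, h1, h2, h3, h4, h5, h6, h7, -⟩ :=
    Pool.Agent.LGD.main2 μ hμ P hP S T₀ hS hT₀ B hB hsound V hV
  exact ⟨c, κ, h1, h2, h3, h4, h5, h6, h7⟩

end Pool.Agent.Results.MP_9649a7_lc.LengthDichotomy
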