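import Pool.Agent.MSD.Hard

/-!
# Q1, or `Σ₂TIME(2^o(m))` has p-measure zero

Let `μ` be a universal `Σ^b_1` formula, and let `P` assign to clocked programs (presentations of
theories) `Δ^b_1` proof formulas, as in the problem. Then the assertion of Q1 holds, or the class
`Σ₂TIME(2^o(m))`, which contains `Σ^p_2` (`Pool.Agent.MSD.sigma2P_mem`), has p-measure zero in the
sense of Lutz: one martingale, which is computed exactly in time polynomial in the length of the
word of outcomes, succeeds on all members `A` of the class. It succeeds even on all sets which agree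
with such an `A` on the very sparse set of the numbers `2 ^ 2 ^ s ^ 2 + i`, `i < s`.

In particular Lutz's hypothesis, that NP does not have p-measure zero, implies the assertion of Q1.
It implies more: no set which is hard for NP or for coNP has a p-optimal proof system (each of the
two statements, for SAT and for TAUT, is known to imply Q1). If such a set has a p-optimal proof
system, already `NTIME(2^o(m))` has p-measure zero (`Pool.Agent.MSD.ntime_of_hard`).
-/

namespace Pool.Agent.Results.MP_9649a7_lc.MeasureDichotomy

open Pool.Agent.H19 Pool.Agent.MSD Pool.Agent.PO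

theorem result (μ : Fm) (hμ : IsUniversal μ) (P : Code → ℕ → Fm) (hP : IsFormalisation μ P) :
    (ReflectionConjecture μ P ∨
      PMeasureZero {A' : Set ℕ | ∃ A ∈ Sigma2Subexp, ∀ x ∈ TestSet, (x ∈ A' ↔ x ∈ A)}) ∧
    (¬ PMeasureZero {A : Set ℕ | InNPNum A} → ReflectionConjecture μ P ∧
      ∀ H : Set T, (NPHard H ∨ CoNPHard H) → ¬ HasPOptimal H) :=
  ⟨Pool.Agent.MSD.main μ hμ P hP, fun h => ⟨Pool.Agent.MSD.of_lutz h μ hμ P hP,
    fun _ hH => Pool.Agent.MSD.no_optimal_of_lutz h hH⟩⟩

end Pool.Agent.Results.MP_9649a7_lc.MeasureDichotomy
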